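import Pool.Agent.Helper77.SO.St3

set_option autoImplicit false

namespace Pool.Agent.Helper89.SO.NV

open Equiv Equiv.Perm Pool.Agent.Helper35.PM Pool.Agent.Helper77.HY Pool.Agent.Helper77.OF4
  Pool.Agent.Helper77.SO

private theorem pow_ne {D : Type} (π : Perm D) (a : D) (s : ℕ) (h0 : 0 < s)
    (h : s < Function.minimalPeriod π a) : (π ^ s) a ≠ a := by
  intro he
  have h1 : Function.IsPeriodicPt π s a := by
    unfold Function.IsPeriodicPt Function.IsFixedPt
    rw [Equiv.Perm.iterate_eq_pow]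
    exact he
  have := h1.minimalPeriod_le h0
  omega

private theorem fst_pow {V : Type} {G : SimpleGraph V} (R : Rot G) (a : G.Dart) (s : ℕ) :
    ((R.r ^ s) a).fst = a.fst := by
  induction s with
  | zero => rfl
  | succ s ih => rw [pow_succ', Equiv.Perm.mul_apply, R.fst_r, ih]

private theorem two_le {V : Type} [Finite V] (S : Set V) (x y : V) (hx : x ∈ S) (hy : y ∈ S)
    (hxy : x ≠ y) : 2 ≤ S.ncard := by
  have h1 : ({x, y} : Set V) ⊆ S := by
    intro z hz
    rcases hz with rfl | hz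
    · exact hx
    · rw [Set.mem_singleton_iff] at hz
      rw [hz]; exact hy
  have h2 := Set.ncard_le_ncard h1 (Set.toFinite S)
  rwa [Set.ncard_pair hxy] at h2

theorem main : StNv := by
  intro V _ G R X W v h
  unfold AFV at h
  push Not at h
  obtain ⟨a, b, c, e, hav, ⟨i, j, k, hi, hij, hjk, hk, hb, hc, he⟩, haX, hbX, hcX, heX, haW, hbW,
    hcW, heW⟩ := h
  have hbv : b.fst = v := by rw [← hb, fst_pow, hav]
  have hcv : c.fst = v := by rw [← hc, fst_pow, hav]
  have hev : e.fst = v := by rw [← he, fst_pow, hav]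
  have hadj : ∀ d : G.Dart, d.fst = v → G.Adj v d.snd := by
    intro d hd
    rw [← hd]
    exact d.adj
  have hne : ∀ d d' : G.Dart, d.fst = v → d'.fst = v → d ≠ d' → d.snd ≠ d'.snd := by
    intro d d' hd hd' hdd hs
    exact hdd (SimpleGraph.Dart.ext _ _ (Prod.ext (hd.trans hd'.symm) hs))
  have hac : a ≠ c := by
    intro hac
    refine pow_ne R.r a j (by omega) (by omega) ?_
    rw [hc, ← hac]
  have hbe : b ≠ e := by
    intro hbe
    refine pow_ne R.r a (k - i) (by omega) (by omega) ?_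
    apply (R.r ^ i).injective
    rw [← Equiv.Perm.mul_apply, ← pow_add, show i + (k - i) = k by omega, he, hb, hbe]
  exact ⟨two_le _ a.snd c.snd ⟨haX, hadj a hav, haW⟩ ⟨hcX, hadj c hcv, hcW⟩ (hne a c hav hcv hac),
    two_le _ b.snd e.snd ⟨hbX, hadj b hbv, hbW⟩ ⟨heX, hadj e hev, heW⟩ (hne b e hbv hev hbe)⟩

end Pool.Agent.Helper89.SO.NV
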